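import Mathlib
import Pool.Agent.Lib.P6b3431.Base

set_option autoImplicit false

/-!
# A non-local factor of a one-generated soluble local Fitting class

`lFit (DihedralGroup 9)` (the dihedral group of order 18) is soluble and equals the Fitting product
of the class of 3-groups and the Fitting class `EvenAction`, which is not local.
-/

namespace Pool.Agent.Results.MP_6b3431_al.NonlocalFactor

/-- A class of groups. -/
abbrev GroupClass := (G : Type) → [Group G] → Prop

/-- Fitting classes: nonempty classes of finite groups, closed under isomorphisms, under normal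
subgroups, and such that `N₁ N₂` is in the class whenever `N₁`, `N₂` are normal subgroups of a
finite group which are in the class. -/
structure FittingClass (X : GroupClass) : Prop where
  finite : ∀ (G : Type) [Group G], X G → Finite G
  nonempty : ∃ (G : Type) (_ : Group G), X G
  iso : ∀ (G K : Type) [Group G] [Group K], Nonempty (G ≃* K) → X G → X K
  normal : ∀ (G : Type) [Group G] (N : Subgroup G), N.Normal → X G → X ↥N
  mul : ∀ (G : Type) [Group G] [Finite G] (N₁ N₂ : Subgroup G),
    N₁.Normal → N₂.Normal → X ↥N₁ → X ↥N₂ → X ↥(N₁ ⊔ N₂)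

/-- The `X`-radical: the join of all normal subgroups that are in `X`. -/
def radical (X : GroupClass) (G : Type) [Group G] : Subgroup G :=
  sSup {N : Subgroup G | N.Normal ∧ X ↥N}

instance radical_normal (X : GroupClass) (G : Type) [Group G] : (radical X G).Normal :=
  Subgroup.sSup_normal _ fun _ h => h.1

/-- The Fitting product `M H`: finite groups `G` with `G / G_M` in `H`. -/
def product (M H : GroupClass) : GroupClass := fun G _ => Finite G ∧ H (G ⧸ radical M G)

/-- The finite `π`-groups. -/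
def piGroups (π : Set ℕ) : GroupClass := fun G _ =>
  Finite G ∧ ∀ p : ℕ, p.Prime → p ∣ Nat.card G → p ∈ π

/-- The finite `p`-groups. -/
def pGroups (p : ℕ) : GroupClass := fun G _ => Finite G ∧ IsPGroup p G

/-- Hartley functions: each prime is mapped to a Fitting class or to the empty class. -/
def IsHartley (f : ℕ → GroupClass) : Prop :=
  ∀ p : ℕ, p.Prime → FittingClass (f p) ∨ ∀ (G : Type) [Group G], ¬ f p G

/-- The set of primes `p` with `f(p)` nonempty. -/
def supp (f : ℕ → GroupClass) : Set ℕ := {p | p.Prime ∧ ∃ (G : Type) (_ : Group G), f p G}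

/-- `LR(f)`: the intersection of the class of finite `supp f`-groups and of the classes
`f(p) N_p E_{p'}` for `p` in `supp f`. -/
def LR (f : ℕ → GroupClass) : GroupClass := fun G _ =>
  piGroups (supp f) G ∧
    ∀ p ∈ supp f, product (f p) (product (pGroups p) (piGroups {r | r ≠ p})) G

/-- Local Fitting classes. -/
def IsLocal (X : GroupClass) : Prop :=
  FittingClass X ∧ ∃ f : ℕ → GroupClass, IsHartley f ∧
    ∀ (G : Type) [Group G], X G ↔ LR f G

/-- The intersection of all local Fitting classes that contain `G₀`. -/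
def lFit (G₀ : Type) [Group G₀] : GroupClass := fun G _ =>
  ∀ X : GroupClass, IsLocal X → X G₀ → X G

/-- The finite groups with a normal `3`-subgroup `P` such that `G / P` is a `2`-group and every
element of `G` acts on `P` by conjugation as an even permutation of the set `P`. -/
def EvenAction : GroupClass := fun G _ =>
  Finite G ∧ ∃ (P : Subgroup G) (_ : P.Normal), IsPGroup 3 ↥P ∧ IsPGroup 2 (G ⧸ P) ∧
    ∀ [Fintype ↥P] [DecidableEq ↥P] (g : G),
      Equiv.Perm.sign (MulAut.conjNormal g : MulAut ↥P).toEquiv = 1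

/-- The finite groups with a normal `3`-subgroup `P` such that `G / P` is a `2`-group. -/
def ThreeByTwo : GroupClass := fun G _ =>
  Finite G ∧ ∃ (P : Subgroup G) (_ : P.Normal), IsPGroup 3 ↥P ∧ IsPGroup 2 (G ⧸ P)

open Pool.Agent.P6b3431

theorem FittingClass.fit {X : GroupClass} (h : FittingClass X) : Fit X :=
  ⟨h.iso, fun G _ _ N hN hG => h.normal G N hN hG, fun G _ _ N K hN hK => h.mul G N K hN hK⟩

theorem FittingClass.ne {X : GroupClass} (h : FittingClass X) : Ne X := by
  obtain ⟨G, _, hG⟩ := h.nonempty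
  exact ⟨G, inferInstance, h.finite G hG, hG⟩

theorem isGreatest_radical {X : GroupClass} (h : Fit X) (hne : Ne X) (G : Type) [Group G]
    [Finite G] : X ↥(radical X G) ∧ ∀ K : Subgroup G, K.Normal → X ↥K → K ≤ radical X G := by
  obtain ⟨N, hN, hXN, hmax⟩ := h.exists_radical hne G
  have heq : radical X G = N :=
    le_antisymm (sSup_le fun K hK => hmax K hK.1 hK.2) (le_sSup ⟨hN, hXN⟩)
  rw [heq]
  exact ⟨hXN, hmax⟩

theorem fProd_iff {X D : GroupClass} (h : Fit X) (hne : Ne X) {G : Type} [Group G] [Finite G] :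
    FProd X D G ↔ D (G ⧸ radical X G) := by
  have hg := isGreatest_radical h hne G
  constructor
  · intro hF
    exact hF (radical X G) hg
  · intro hD N hNn hN
    have heq : N = radical X G := le_antisymm (hg.2 N hNn hN.1) (hN.2 _ inferInstance hg.1)
    subst heq
    exact hD

theorem fit_pGroups {p : ℕ} (hp : p.Prime) : FittingClass (pGroups p) := by
  have : Fact p.Prime := ⟨hp⟩
  refine ⟨fun G _ h => h.1, ⟨PUnit, inferInstance, inferInstance, IsPGroup.of_subsingleton _ _⟩,
    ?_, ?_, ?_⟩
  · rintro G K _ _ ⟨e⟩ h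
    have := h.1
    exact ⟨Finite.of_equiv G e.toEquiv, h.2.of_equiv e⟩
  · intro G _ N _ h
    have := h.1
    exact ⟨inferInstance, h.2.to_subgroup N⟩
  · intro G _ _ N K hN hK h1 h2
    exact ⟨inferInstance, IsPGroup.to_sup_of_normal_right h1.2 h2.2⟩

theorem pp_iff {p : ℕ} (hp : p.Prime) {Q : Type} [Group Q] [Finite Q] :
    product (pGroups p) (piGroups {r | r ≠ p}) Q ↔ PP p Q := by
  have hg := isGreatest_radical (fit_pGroups hp).fit (fit_pGroups hp).ne Q
  constructor
  · rintro ⟨-, -, h⟩
    refine ⟨radical (pGroups p) Q, inferInstance, hg.1.2, ?_⟩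
    rw [Nat.coprime_comm, hp.coprime_iff_not_dvd]
    intro hdvd
    exact h p hp hdvd rfl
  · rintro ⟨P, hPn, hP, hcop⟩
    refine ⟨inferInstance, inferInstance, fun r hr hdvd => ?_⟩
    have hle : P ≤ radical (pGroups p) Q := hg.2 P hPn ⟨inferInstance, hP⟩
    have hd : (radical (pGroups p) Q).index ∣ P.index := Subgroup.index_dvd_of_le hle
    rintro rfl
    have h1 : r ∣ P.index := dvd_trans hdvd hd
    have h2 := Nat.dvd_gcd h1 (dvd_refl r)
    rw [hcop] at h2
    exact hr.one_lt.ne' (Nat.dvd_one.mp h2)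

theorem lr_iff {X : GroupClass} (h : Fit X) (hne : Ne X) {p : ℕ} (hp : p.Prime) {G : Type}
    [Group G] [Finite G] :
    product X (product (pGroups p) (piGroups {r | r ≠ p})) G ↔ FProd X (PP p) G := by
  rw [fProd_iff h hne, ← pp_iff hp]
  exact ⟨fun hh => hh.2, fun hh => ⟨inferInstance, hh⟩⟩

theorem IsLocal.loc {X : GroupClass} (h : IsLocal X) : Loc X := by
  obtain ⟨hX, f, hf, hXf⟩ := h
  have hfne : ∀ p, p.Prime → ((∃ (G : Type) (_ : Group G), f p G) ↔ Ne (f p)) := by
    intro p hp
    constructor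
    · rintro ⟨G, _, hG⟩
      rcases hf p hp with h | h
      · exact h.ne
      · exact absurd hG (h G)
    · rintro ⟨G, _, _, hG⟩
      exact ⟨G, inferInstance, hG⟩
  refine ⟨fun p => if p.Prime then f p else clE, fun p => ?_, fun G _ _ => ?_⟩
  · by_cases hp : p.Prime
    · simp only [if_pos hp]
      rcases hf p hp with h | h
      · exact h.fit
      · exact ⟨fun _ _ _ _ _ h' => absurd h' (h _), fun _ _ _ _ _ h' => absurd h' (h _),
          fun _ _ _ _ _ _ _ h' => absurd h' (h _)⟩
    · simp only [if_neg hp]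
      exact fit_E
  · rw [hXf]
    constructor
    · rintro ⟨h1, h2⟩
      refine ⟨fun p hp hdvd => ?_, fun p hp hne => ?_⟩
      · simp only [if_pos hp]
        exact (hfne p hp).mp (h1.2 p hp hdvd).2
      · simp only [if_pos hp] at hne ⊢
        have hfit : Fit (f p) := by
          rcases hf p hp with h | h
          · exact h.fit
          · obtain ⟨K, _, _, hK⟩ := hne
            exact absurd hK (h K)
        exact (lr_iff hfit hne hp).mp (h2 p ⟨hp, (hfne p hp).mpr hne⟩)
    · rintro ⟨h1, h2⟩
      refine ⟨⟨inferInstance, fun p hp hdvd => ⟨hp, ?_⟩⟩, fun p hp => ?_⟩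
      · have := h1 p hp hdvd
        simp only [if_pos hp] at this
        exact (hfne p hp).mpr this
      · have hne := (hfne p hp.1).mp hp.2
        have hfit : Fit (f p) := by
          rcases hf p hp.1 with h | h
          · exact h.fit
          · obtain ⟨K, _, _, hK⟩ := hne
            exact absurd hK (h K)
        have := h2 p hp.1 (by simpa only [if_pos hp.1] using hne)
        simp only [if_pos hp.1] at this
        exact (lr_iff hfit hne hp.1).mpr this

theorem core_iff {G : Type} [Group G] (P : Subgroup G) (hn : P.Normal) :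
    Core G P ↔ IsPGroup 3 ↥P ∧ IsPGroup 2 (G ⧸ P) := by
  constructor
  · intro h
    exact ⟨h.2.1, isPGroup_quot h le_rfl⟩
  · rintro ⟨h1, h2⟩
    refine ⟨hn, h1, fun g => ?_⟩
    obtain ⟨k, hk⟩ := h2 (QuotientGroup.mk g)
    refine ⟨k, ?_⟩
    rw [← QuotientGroup.mk_pow] at hk
    exact (QuotientGroup.eq_one_iff _).mp hk

theorem threeByTwo_iff {G : Type} [Group G] : ThreeByTwo G ↔ Finite G ∧ clF G := by
  constructor
  · rintro ⟨hfin, P, hn, h⟩
    exact ⟨hfin, P, (core_iff P hn).mpr h⟩
  · rintro ⟨hfin, P, hP⟩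
    exact ⟨hfin, P, hP.1, (core_iff P hP.1).mp hP⟩

theorem evenAction_iff {G : Type} [Group G] : EvenAction G ↔ clH G := by
  constructor
  · rintro ⟨hfin, P, hn, h1, h2, h3⟩
    refine ⟨hfin, P, hn, (core_iff P hn).mpr ⟨h1, h2⟩, fun g => ?_⟩
    classical
    cases nonempty_fintype ↥P
    rw [sgn_eq]
    exact h3 g
  · rintro ⟨hfin, P, hn, h1, h2⟩
    refine ⟨hfin, P, hn, ((core_iff P hn).mp h1).1, ((core_iff P hn).mp h1).2, ?_⟩
    intro _ _ g
    rw [← sgn_eq]
    exact h2 g

theorem fitting_threeByTwo : FittingClass ThreeByTwo := by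
  refine ⟨fun G _ h => h.1, ⟨DihedralGroup 9, inferInstance,
    threeByTwo_iff.mpr ⟨inferInstance, F_nine⟩⟩, ?_, ?_, ?_⟩
  · rintro G K _ _ ⟨e⟩ h
    rw [threeByTwo_iff] at h ⊢
    have := h.1
    obtain ⟨P, hP⟩ := h.2
    exact ⟨Finite.of_equiv G e.toEquiv, _, hP.map e⟩
  · intro G _ N hN h
    rw [threeByTwo_iff] at h ⊢
    have := h.1
    obtain ⟨P, hP⟩ := h.2
    exact ⟨inferInstance, _, hP.subgroupOf N⟩
  · intro G _ _ N K hN hK h1 h2
    rw [threeByTwo_iff] at h1 h2 ⊢
    refine ⟨inferInstance, ?_⟩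
    have hfit : Fit clF := by
      apply fit_of
      · rintro G K _ _ ⟨e⟩ ⟨P, hP⟩
        exact ⟨_, hP.map e⟩
      · rintro G _ _ N _ ⟨P, hP⟩
        exact ⟨_, hP.subgroupOf N⟩
      · rintro G _ _ N K hN hK htop ⟨P, hP⟩ ⟨Q, hQ⟩
        exact ⟨_, Core.sup hN hK htop hP hQ⟩
    exact hfit.2.2 G N K hN hK h1.2 h2.2

theorem fitting_even : FittingClass EvenAction := by
  refine ⟨fun G _ h => h.1, ⟨DihedralGroup 9, inferInstance, evenAction_iff.mpr H_nine⟩,
    ?_, ?_, ?_⟩
  · rintro G K _ _ e h
    rw [evenAction_iff] at h ⊢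
    exact fit_H.1 G K e h
  · intro G _ N hN h
    have := h.1
    rw [evenAction_iff] at h ⊢
    exact fit_H.2.1 G N hN h
  · intro G _ _ N K hN hK h1 h2
    rw [evenAction_iff] at h1 h2 ⊢
    exact fit_H.2.2 G N K hN hK h1 h2

theorem fitting_triv : FittingClass (fun G (_ : Group G) => Finite G ∧ clT G) := by
  refine ⟨fun G _ h => h.1, ⟨PUnit, inferInstance, inferInstance,
    inferInstanceAs (Subsingleton PUnit)⟩, ?_, ?_, ?_⟩
  · rintro G K _ _ ⟨e⟩ h
    have := h.1
    exact ⟨Finite.of_equiv G e.toEquiv, fit_T.1 G K ⟨e⟩ h.2⟩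
  · intro G _ N hN h
    have := h.1
    exact ⟨inferInstance, fit_T.2.1 G N hN h.2⟩
  · intro G _ _ N K hN hK h1 h2
    exact ⟨inferInstance, fit_T.2.2 G N K hN hK h1.2 h2.2⟩

/-- The Hartley function of `ThreeByTwo`. -/
def hf (p : ℕ) : GroupClass := fun G _ =>
  (p = 2 ∧ pGroups 3 G) ∨ (p = 3 ∧ Finite G ∧ clT G)

theorem hf_iff {p : ℕ} {G : Type} [Group G] : hf p G ↔ Finite G ∧ fF p G := by
  unfold hf fF
  by_cases h2 : p = 2
  · subst h2
    simp [pGroups, clM]
  · by_cases h3 : p = 3
    · subst h3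
      simp
    · simp [h2, h3, clE]

theorem isLocal_threeByTwo : IsLocal ThreeByTwo := by
  have hsupp : ∀ p, p.Prime → ((∃ (G : Type) (_ : Group G), hf p G) ↔ Ne (fF p)) := by
    intro p hp
    constructor
    · rintro ⟨G, _, hG⟩
      rw [hf_iff] at hG
      exact ⟨G, inferInstance, hG.1, hG.2⟩
    · rintro ⟨G, _, hfin, hG⟩
      exact ⟨G, inferInstance, hf_iff.mpr ⟨hfin, hG⟩⟩
  have hfit : ∀ p, Fit (hf p) := by
    intro p
    refine ⟨?_, ?_, ?_⟩
    · rintro G K _ _ ⟨e⟩ h
      rw [hf_iff] at h ⊢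
      have := h.1
      exact ⟨Finite.of_equiv G e.toEquiv, (fit_fF p).1 G K ⟨e⟩ h.2⟩
    · intro G _ _ N hN h
      rw [hf_iff] at h ⊢
      exact ⟨inferInstance, (fit_fF p).2.1 G N hN h.2⟩
    · intro G _ _ N K hN hK h1 h2
      rw [hf_iff] at h1 h2 ⊢
      exact ⟨inferInstance, (fit_fF p).2.2 G N K hN hK h1.2 h2.2⟩
  have hprod : ∀ p (G : Type) [Group G] [Finite G], FProd (hf p) (PP p) G ↔
      FProd (fF p) (PP p) G := by
    intro p G _ _
    unfold FProd
    have : ∀ N : Subgroup G, hf p ↥N ↔ fF p ↥N := fun N =>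
      hf_iff.trans ⟨fun h => h.2, fun h => ⟨inferInstance, h⟩⟩
    simp only [this]
  refine ⟨fitting_threeByTwo, hf, fun p _ => ?_, fun G _ => ?_⟩
  · by_cases h2 : p = 2
    · left
      have : (hf p : GroupClass) = pGroups 3 := by
        funext G _
        simp [hf, h2]
      rw [this]
      exact fit_pGroups Nat.prime_three
    · by_cases h3 : p = 3
      · left
        have : (hf p : GroupClass) = fun G (_ : Group G) => Finite G ∧ clT G := by
          funext G _
          simp [hf, h3]
        rw [this]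
        exact fitting_triv
      · right
        intro G _ h
        rcases h with h | h
        · exact h2 h.1
        · exact h3 h.1
  · rw [threeByTwo_iff]
    constructor
    · rintro ⟨hfin, hG⟩
      obtain ⟨h1, h2⟩ := loc_F_iff.mp hG
      refine ⟨⟨hfin, fun p hp hdvd => ⟨hp, (hsupp p hp).mpr (h1 p hp hdvd)⟩⟩, fun p hp => ?_⟩
      have hne := (hsupp p hp.1).mp hp.2
      have hne' : Ne (hf p) := by
        obtain ⟨K, _, _, hK⟩ := hne
        exact ⟨K, inferInstance, inferInstance, hf_iff.mpr ⟨inferInstance, hK⟩⟩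
      exact (lr_iff (hfit p) hne' hp.1).mpr ((hprod p G).mpr (h2 p hp.1 hne))
    · rintro ⟨⟨hfin, h1⟩, h2⟩
      refine ⟨hfin, loc_F_iff.mpr ⟨fun p hp hdvd => (hsupp p hp).mp (h1 p hp hdvd).2,
        fun p hp hne => ?_⟩⟩
      have hne' : Ne (hf p) := by
        obtain ⟨K, _, _, hK⟩ := hne
        exact ⟨K, inferInstance, inferInstance, hf_iff.mpr ⟨inferInstance, hK⟩⟩
      exact (hprod p G).mp ((lr_iff (hfit p) hne' hp).mp (h2 p ⟨hp, (hsupp p hp).mpr hne⟩))

/-- `lFit` of the dihedral group of order 18. -/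
theorem lFit_iff {G : Type} [Group G] : lFit (DihedralGroup 9) G ↔ ThreeByTwo G := by
  constructor
  · intro h
    exact h ThreeByTwo isLocal_threeByTwo (threeByTwo_iff.mpr ⟨inferInstance, F_nine⟩)
  · intro h X hX h9
    rw [threeByTwo_iff] at h
    have := h.1
    exact minimal_F hX.loc h9 h.2

theorem lFit_eq : (lFit (DihedralGroup 9) : GroupClass) = ThreeByTwo := by
  funext G _
  exact propext lFit_iff

theorem product_iff {G : Type} [Group G] :
    product (pGroups 3) EvenAction G ↔ ThreeByTwo G := by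
  have hfp := fit_pGroups Nat.prime_three
  have hrad : ∀ (G : Type) [Group G] [Finite G] (N : Subgroup G),
      (pGroups 3 ↥N ↔ clM ↥N) := fun G _ _ N =>
    ⟨fun h => h.2, fun h => ⟨inferInstance, h⟩⟩
  have hF : ∀ (G : Type) [Group G] [Finite G],
      FProd (pGroups 3) clH G ↔ FProd clM clH G := by
    intro G _ _
    unfold FProd
    simp only [hrad G]
  constructor
  · rintro ⟨hfin, h⟩
    rw [threeByTwo_iff, F_iff, ← hF G, fProd_iff hfp.fit hfp.ne]
    exact ⟨hfin, evenAction_iff.mp h⟩
  · intro h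
    rw [threeByTwo_iff] at h
    obtain ⟨hfin, h⟩ := h
    rw [F_iff, ← hF G, fProd_iff hfp.fit hfp.ne] at h
    exact ⟨hfin, evenAction_iff.mpr h⟩

theorem product_eq : (lFit (DihedralGroup 9) : GroupClass) = product (pGroups 3) EvenAction := by
  funext G _
  exact propext (lFit_iff.trans product_iff.symm)

theorem three_ne : pGroups 3 ≠ (lFit (DihedralGroup 9) : GroupClass) := by
  intro h
  have h1 : (lFit (DihedralGroup 9) : GroupClass) (DihedralGroup 9) := fun X _ h => h
  rw [← h] at h1
  obtain ⟨k, hk⟩ := h1.2 (DihedralGroup.sr 0)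
  have hs : (DihedralGroup.sr 0 : DihedralGroup 9) ^ 2 = 1 := by
    rw [pow_two, DihedralGroup.sr_mul_self]
  have hcop : Nat.Coprime (3 ^ k) 2 := Nat.Coprime.pow_left k (by decide)
  have hgcd := pow_gcd_eq_one.mpr ⟨hk, hs⟩
  rw [hcop, pow_one] at hgcd
  exact absurd hgcd (by decide)

theorem not_local_even : ¬ IsLocal EvenAction := by
  intro h
  have h9 : EvenAction (DihedralGroup 9) := evenAction_iff.mpr H_nine
  exact not_H_three (evenAction_iff.mp (minimal_F h.loc h9 F_three))

/-- In every finite group `radical X G` is the largest normal subgroup in the Fitting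
class `X`. -/
theorem radical_isGreatest {X : GroupClass} (h : FittingClass X) (G : Type) [Group G] [Finite G] :
    IsGreatest {N : Subgroup G | N.Normal ∧ X ↥N} (radical X G) :=
  ⟨⟨inferInstance, (isGreatest_radical h.fit h.ne G).1⟩,
    fun K hK => (isGreatest_radical h.fit h.ne G).2 K hK.1 hK.2⟩

/-- **Theorem.** Let `F = lFit(G₀)` with `G₀` the dihedral group of order 18. Then `F` is a local
Fitting class, all its members are soluble, and `F = M H`, where `M` (the finite 3-groups) and
`H` (`EvenAction`) are Fitting classes, `M ≠ F` and `H` is not local. -/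
theorem result :
    IsLocal (lFit (DihedralGroup 9)) ∧
    (∀ (G : Type) [Group G], lFit (DihedralGroup 9) G → Group.IsSolvable G) ∧
    FittingClass (pGroups 3) ∧ FittingClass EvenAction ∧
    lFit (DihedralGroup 9) = product (pGroups 3) EvenAction ∧
    pGroups 3 ≠ lFit (DihedralGroup 9) ∧
    ¬ IsLocal EvenAction := by
  refine ⟨?_, fun G _ h => ?_, fit_pGroups Nat.prime_three, fitting_even, product_eq, three_ne,
    not_local_even⟩
  · rw [lFit_eq]
    exact isLocal_threeByTwo
  · rw [lFit_iff, threeByTwo_iff] at h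
    have := h.1
    exact solvable_F h.2

end Pool.Agent.Results.MP_6b3431_al.NonlocalFactor
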